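import Pool.Agent.SZG.StmtsY

set_option autoImplicit false

/-! Row MNH of the squad SZG: a minor and the product formula. -/

namespace Pool.Agent.SZG.H70

open scoped BigOperators
open Pool.Agent.THS Pool.Agent.SZG

theorem le_nv70 {K ι : Type} [Field K] [Finite ι] (v : AbsoluteValue K ℝ) (x : ι → K) (i : ι) :
    v (x i) ≤ nv v x :=
  le_ciSup (Set.finite_range (fun i => v (x i))).bddAbove i

theorem nv_nonneg70 {K ι : Type} [Field K] (v : AbsoluteValue K ℝ) (x : ι → K) : 0 ≤ nv v x :=
  Real.iSup_nonneg fun _ => v.nonneg _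

theorem nv_prod {K ι : Type} [Field K] [Finite ι] [Nonempty ι] (v : AbsoluteValue K ℝ)
    (y y' : ι → K) : nv v (fun ab : ι × ι => y ab.1 * y' ab.2) = nv v y * nv v y' := by
  apply le_antisymm
  · unfold nv
    apply ciSup_le
    intro ab
    rw [map_mul]
    exact mul_le_mul (le_nv70 v y ab.1) (le_nv70 v y' ab.2) (v.nonneg _) (nv_nonneg70 v y)
  · obtain ⟨a, ha⟩ := exists_eq_ciSup_of_finite (f := fun i => v (y i))
    obtain ⟨b, hb⟩ := exists_eq_ciSup_of_finite (f := fun i => v (y' i))
    have e1 : nv v y = v (y a) := ha.symm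
    have e2 : nv v y' = v (y' b) := hb.symm
    rw [e1, e2, ← map_mul]
    exact le_nv70 v (fun ab : ι × ι => y ab.1 * y' ab.2) (a, b)

theorem qv_pos {K : Type} [Field K] [NumberField K] (v : NumberField.FinitePlace K) :
    0 < qv v := by
  unfold qv
  have := NumberField.HeightOneSpectrum.one_lt_absNorm v.maximalIdeal
  exact_mod_cast (by omega : 0 < Ideal.absNorm v.maximalIdeal.asIdeal)

theorem mnh (pfg : PfgStmt) (hcp : HcpStatement) : MnhStmt := by
  intro K ι _ _ _ y y' S ev hpq hTC
  classical
  obtain ⟨p, q, hD⟩ := hpq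
  have : Nonempty ι := ⟨p⟩
  set D : K := y p * y' q - y q * y' p with hDd
  set Y : ι × ι → K := fun ab => y ab.1 * y' ab.2 with hY
  have hy : y ≠ 0 := by
    rintro rfl
    apply hD
    simp [hDd]
  have hy' : y' ≠ 0 := by
    rintro rfl
    apply hD
    simp [hDd]
  have hY0 : Y ≠ 0 := by
    obtain ⟨a, ha⟩ := Function.ne_iff.mp hy
    obtain ⟨b, hb⟩ := Function.ne_iff.mp hy'
    intro h
    have := congrFun h (a, b)
    simp only [hY, Pi.zero_apply] at this
    exact (mul_ne_zero ha hb) this
  have hnv : ∀ v : AbsoluteValue K ℝ, nv v Y = nv v y * nv v y' := fun v => nv_prod v y y'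
  have hYle : ∀ (v : AbsoluteValue K ℝ) (a b : ι), v (y a * y' b) ≤ nv v Y :=
    fun v a b => le_nv70 v Y (a, b)
  have hp0 : ∀ v : NumberField.FinitePlace K, 0 < qv v ^ ev v := fun v => pow_pos (qv_pos v) _
  have key := pfg K (ι × ι) Y D 1 0 1 1 2 S (fun v => qv v ^ ev v) hY0 hD one_ne_zero
    (by norm_num) one_pos (fun v => (hp0 v).le) ?_ ?_ ?_
  rotate_left
  · intro v
    have h1 : v.val D ≤ v.val (y p * y' q) + v.val (y q * y' p) := by
      rw [hDd]
      exact AbsoluteValue.sub_le_add v.val _ _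
    have h2 := hYle v.val p q
    have h3 := hYle v.val q p
    simp only [pow_one, map_one, one_mul]
    linarith
  · intro v
    have hna : v.val D ≤ max (v.val (y p * y' q)) (v.val (y q * y' p)) := by
      rw [hDd, sub_eq_add_neg]
      have hh := NumberField.FinitePlace.add_le v (y p * y' q) (-(y q * y' p))
      have hneg : v.val (-(y q * y' p)) = v.val (y q * y' p) := AbsoluteValue.map_neg v.val _
      rw [← hneg]
      exact hh
    have h2 := hYle v.val p q
    have h3 := hYle v.val q p
    simp only [pow_one, map_one, one_mul, pow_zero]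
    exact hna.trans (max_le h2 h3)
  · intro v hv
    have h1 := hTC v hv p q
    simp only [pow_one, map_one, one_mul, pow_zero]
    rw [hnv v.val]
    have h2 : qv v ^ ev v * v.val D ≤ qv v ^ ev v * ((qv v ^ ev v)⁻¹ * (nv v.val y * nv v.val y')) :=
      mul_le_mul_of_nonneg_left h1 (hp0 v).le
    rw [← mul_assoc, mul_inv_cancel₀ (hp0 v).ne', one_mul] at h2
    exact h2
  have key2 := hcp K (ι × ι) ι 1 2 0 0 1 1 (fun _ => Y) ![y, y'] zero_le_one one_ne_zero
    (fun _ => hY0) (by
      intro j
      fin_cases j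
      · exact hy
      · exact hy') (by
      intro v
      rw [Fin.prod_univ_one, Fin.prod_univ_two]
      simp only [pow_zero, one_mul, Matrix.cons_val_zero, Matrix.cons_val_one]
      rw [hnv]) (by
      intro v
      rw [Fin.prod_univ_one, Fin.prod_univ_two]
      simp only [pow_zero, one_mul, Matrix.cons_val_zero, Matrix.cons_val_one]
      rw [hnv])
  rw [Fin.prod_univ_one, Fin.prod_univ_two] at key2
  simp only [pow_zero, mul_one, one_pow, one_mul, Matrix.cons_val_zero, Matrix.cons_val_one] at key2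
  simp only [pow_zero, mul_one, pow_one] at key
  have hfin : ∏ v ∈ S, qv v ^ ev v ≤ 2 ^ Module.finrank ℚ K *
      (Height.mulHeight y * Height.mulHeight y') :=
    key.trans (mul_le_mul_of_nonneg_left key2 (by positivity))
  have hH1 : 0 < Height.mulHeight y := lt_of_lt_of_le one_pos (Height.one_le_mulHeight _)
  have hH2 : 0 < Height.mulHeight y' := lt_of_lt_of_le one_pos (Height.one_le_mulHeight _)
  have hlog := Real.log_le_log (Finset.prod_pos fun v _ => hp0 v) hfin
  rw [Real.log_prod (fun v _ => (hp0 v).ne'), Real.log_mul (by positivity) (by positivity),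
    Real.log_mul hH1.ne' hH2.ne', Real.log_pow] at hlog
  have e : ∑ v ∈ S, Real.log (qv v ^ ev v) = ∑ v ∈ S, (ev v : ℝ) * lN v := by
    refine Finset.sum_congr rfl fun v _ => ?_
    rw [Real.log_pow]
    rfl
  rw [e] at hlog
  linarith

end Pool.Agent.SZG.H70
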